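import Pool.Agent.T2H95.NJ.Near
import Pool.Agent.X39.Near.JQ
import Pool.Agent.X39.Near.DepInt

/-!
# The modular Schanuel conjecture with derivatives on all algebraic curves, at ALL algebraic parameters close to any
# number outside a set of dimension zero

Let `z_1, …, z_n` be algebraic points of the upper half-plane in distinct orbits of `GL₂(ℚ)`, none of them special, and let
`σ_1, …, σ_g` be further special points. The conjecture says that the `3 n` numbers `j (z_i)`, `j' (z_i)`, `j'' (z_i)` are
algebraically independent over the field generated by the `j' (σ_k)`. Here we consider **all** algebraic curves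
`z_i = φ_i (t)` over the algebraic numbers: the `φ_i` are non-constant algebraic functions, analytic at a point `x`, with
values in the upper half-plane, and the only condition is the obvious one: `φ_k ≠ γ φ_i` for all rational matrices `γ`
and all `i ≠ k` (for example `φ_i (t) = α_i t`, `α_i` positive real algebraic numbers with irrational quotients, or
`φ_1 (t) = t`, `φ_2 (t) = t + i`, or `φ_i (t) = t ^ (1 / i)`).

There is **one** set `E` of complex numbers, of Hausdorff dimension `0`, such that for all `x` outside `E`, all such curves,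
all number fields `F`, all degrees `d`, all `A` and all `ω > 0` there are `B`, `T₁` such that for `T ≥ T₁` and **all** `t ∈ F`
of height at most `T` with `|t - x| ≤ T ^ (-ω)` the `3 n` numbers `j (z_i)`, `j' (z_i)`, `j'' (z_i)`, `z_i = φ_i (t)`, satisfy no
relation of degree at most `d` whose coefficients are polynomials of degree at most `d` and height at most `T ^ A` in arbitrary
complex numbers `ξ_1, …, ξ_g` fixed in advance (for instance `π` and the `j' (σ_k)`), not even an approximate relation, up to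
`T ^ (-B)`. The same holds if one adds the numbers `exp (2 π i z_i)` for those `i` in a set for which the functions `φ_i` have
no constant non-trivial combination with integral coefficients (Bertolin's conjecture).

Proof. (1) If `j (φ_1)`, `j (φ_2)` are algebraically dependent over `ℂ`, then `φ_1`, `φ_2` have the same Schwarzian
derivative (by the algebraic independence of `t`, `j (φ_1)`, `j' (φ_1)`, `j'' (φ_1)`), so `φ_2 = γ φ_1` with a complex matrix
`γ` (`Pool.Agent.T2H95.NJ.Pr.mob`). (2) A relation between `j (w)` and `j (γ w)` on an open set implies that `γ` is rational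
up to a factor (`Dt.rational`): if `γ` or its inverse maps a cusp into the upper half-plane, the relation extends to a
neighbourhood of this cusp and the parabolic elements give a contradiction; otherwise `γ` is real up to a factor, and the
parabolic elements show that it is rational; here `j (τ) = j (τ')` only for equivalent `τ`, `τ'`, because a lattice is
determined by its invariants. (3) By the theorem on period matrices of the library (`Y776.AxJ`) the `3 n` functions are
algebraically independent over `ℂ(t)`. (4) There are countably many algebraic functions over the algebraic numbers on each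
rational disc. (5) The levels of the library (`Pool.Agent.X39.Near`) give the set `E`.
-/

set_option autoImplicit false

open NumberField Filter Topology

namespace Pool.Agent.Results.MP_f58a57_nt.CurvesNearEveryNumber

/-- the normalised Eisenstein series of weight `4` -/
noncomputable def E4 (τ : ℂ) : ℂ :=
  1 + 240 * ∑' m : ℕ, ((ArithmeticFunction.sigma 3 (m + 1) : ℕ) : ℂ) *
    Complex.exp (2 * (Real.pi : ℂ) * Complex.I * τ) ^ (m + 1)

/-- the normalised Eisenstein series of weight `6` -/
noncomputable def E6 (τ : ℂ) : ℂ :=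
  1 - 504 * ∑' m : ℕ, ((ArithmeticFunction.sigma 5 (m + 1) : ℕ) : ℂ) *
    Complex.exp (2 * (Real.pi : ℂ) * Complex.I * τ) ^ (m + 1)

/-- the modular invariant `j = q⁻¹ + 744 + 196884 q + ⋯` -/
noncomputable def j (τ : ℂ) : ℂ := 1728 * E4 τ ^ 3 / (E4 τ ^ 3 - E6 τ ^ 2)

/-- the `3 n + s` numbers `j (z_i)`, `j' (z_i)`, `j'' (z_i)` (complex derivatives) and `exp (2 π i z_(e k))`, where
`z_i = φ_i (t)` -/
noncomputable def value {n s : ℕ} (φ : Fin n → ℂ → ℂ) (e : Fin s → Fin n) (t : ℂ) : (Fin n × Fin 3) ⊕ Fin s → ℂ :=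
  Sum.elim (fun p => ![j (φ p.1 t), deriv j (φ p.1 t), deriv (deriv j) (φ p.1 t)] p.2)
    fun k => Complex.exp (2 * (Real.pi : ℂ) * Complex.I * φ (e k) t)

/-- An algebraic curve near the point `x`, over the algebraic numbers, in `ℍ ^ n`, with non-constant coordinates no two of
which are related by a rational matrix; and no combination of the coordinates `φ_(e k)` with integral coefficients, not all
zero, is constant (this is no condition for `s = 0`). -/
structure Curve (x : ℂ) {n s : ℕ} (φ : Fin n → ℂ → ℂ) (e : Fin s → Fin n) : Prop where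
  analytic : ∀ i, AnalyticAt ℂ (φ i) x
  im_pos : ∀ i, 0 < (φ i x).im
  algebraic : ∀ i, ∃ P : MvPolynomial (Fin 2) ℂ, P ≠ 0 ∧ (∀ m, IsAlgebraic ℚ (P.coeff m)) ∧
    ∀ᶠ z in 𝓝 x, MvPolynomial.eval ![z, φ i z] P = 0
  nonconstant : ∀ i c, ¬ ∀ᶠ z in 𝓝 x, φ i z = c
  orbits : ∀ i k, i ≠ k → ∀ a b c d : ℚ, a * d - b * c ≠ 0 →
    ¬ ∀ᶠ z in 𝓝 x, φ k z * ((c : ℂ) * φ i z + d) = (a : ℂ) * φ i z + b
  linear : ∀ (m : Fin s → ℤ) (c : ℂ), (∀ᶠ z in 𝓝 x, ∑ k, (m k : ℂ) * φ (e k) z = c) → m = 0

/-- The element `t` of the number field `F` is a quotient of integers all of whose conjugates are at most `T`. -/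
def Size (F : Type) [Field F] [NumberField F] (T : ℝ) (t : F) : Prop :=
  ∃ a b : 𝓞 F, b ≠ 0 ∧ (∀ φ : F →+* ℂ, ‖φ a‖ ≤ T ∧ ‖φ b‖ ≤ T) ∧ t = a / b

/-- the value at the numbers `ξ_i` of a polynomial with coefficients in the integers of `F` -/
noncomputable def coefficient {g : ℕ} (ξ : Fin g → ℂ) (F : Type) [Field F] (ι : F →+* ℂ) :
    MvPolynomial (Fin g) (𝓞 F) →+* ℂ := MvPolynomial.eval₂Hom (ι.comp (algebraMap (𝓞 F) F)) ξ

/-- There is a relation: a polynomial `P` of degree at most `d` in each variable, whose coefficients are values at the `ξ_i` of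
polynomials of degree at most `d` in each variable with coefficients in the integers of `F` all of whose conjugates are at
most `T ^ A`, such that the absolute value of `P (v)` is at most `T ^ (-B)` times that of some nonzero coefficient. -/
def Relation {K : Type} {g : ℕ} (v : K → ℂ) (ξ : Fin g → ℂ) (F : Type) [Field F] [NumberField F] (ι : F →+* ℂ)
    (d : ℕ) (A B T : ℝ) : Prop :=
  ∃ P : MvPolynomial K (MvPolynomial (Fin g) (𝓞 F)), (∀ x, P.degreeOf x ≤ d) ∧
    (∀ e y, (P.coeff e).degreeOf y ≤ d) ∧ (∀ e s (φ : F →+* ℂ), ‖φ ((P.coeff e).coeff s : 𝓞 F)‖ ≤ T ^ A) ∧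
    ∃ e₀, coefficient ξ F ι (P.coeff e₀) ≠ 0 ∧
      ‖MvPolynomial.eval₂ (coefficient ξ F ι) v P‖ ≤ T ^ (-B) * ‖coefficient ξ F ι (P.coeff e₀)‖

theorem j_eq {τ : ℂ} (h : 0 < τ.im) : j τ = Pool.Agent.Y776.jf τ := Pool.Agent.X39.Near.JQ.J_exp h

theorem j_ev {τ : ℂ} (h : 0 < τ.im) : j =ᶠ[𝓝 τ] Pool.Agent.Y776.jf := by
  filter_upwards [Pool.Agent.Y776.AxJ.isOpen_H.mem_nhds h] with σ hσ
  exact j_eq hσ

theorem dj_eq {τ : ℂ} (h : 0 < τ.im) : deriv j τ = deriv Pool.Agent.Y776.jf τ := (j_ev h).deriv_eq

theorem dj_ev {τ : ℂ} (h : 0 < τ.im) : deriv j =ᶠ[𝓝 τ] deriv Pool.Agent.Y776.jf := by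
  filter_upwards [Pool.Agent.Y776.AxJ.isOpen_H.mem_nhds h] with σ hσ
  exact dj_eq hσ

theorem ddj_eq {τ : ℂ} (h : 0 < τ.im) : deriv (deriv j) τ = deriv (deriv Pool.Agent.Y776.jf) τ := (dj_ev h).deriv_eq

theorem value_eq {n s : ℕ} {φ : Fin n → ℂ → ℂ} {e : Fin s → Fin n} {t : ℂ} (h : ∀ i, 0 < (φ i t).im) :
    value φ e t = fun k => Pool.Agent.T2H95.NJ.vl φ e k t := by
  funext k
  rcases k with ⟨i, m⟩ | k
  · fin_cases m
    · exact j_eq (h i)
    · exact dj_eq (h i)
    · exact ddj_eq (h i)
  · rfl

theorem Curve.at {x : ℂ} {n s : ℕ} {φ : Fin n → ℂ → ℂ} {e : Fin s → Fin n} (h : Curve x φ e) :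
    Pool.Agent.T2H95.NJ.CurveAt x φ e where
  an := h.analytic
  im := h.im_pos
  alg := h.algebraic
  nc := h.nonconstant
  rat := fun i k hik p q r s hdet => h.orbits i k hik p q r s hdet
  lin := h.linear

/-- **Theorem.** Let `ξ_1, …, ξ_g` be complex numbers. There is a set `E` of complex numbers of Hausdorff dimension `0` such
that for all `x` outside `E`, all `n ≥ 1`, `s`, all algebraic curves `φ` near `x` (`Curve`), all number fields `F` with an
embedding `ι` in `ℂ`, all `d`, `A` and `ω > 0` there are `B`, `T₁` such that for all `T ≥ T₁` and all `t ∈ F`, quotients of integers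
with conjugates at most `T`, with `|ι t - x| ≤ T ^ (-ω)`: (1) there is no relation (`Relation`) between the `3 n + s` numbers
`value`; (2) `|W (value)| > T ^ (-B)` for all nonzero integral polynomials `W` of degree at most `d` in each variable with
coefficients of absolute value at most `T ^ A`. -/
theorem result {g : ℕ} (ξ : Fin g → ℂ) :
    ∃ E : Set ℂ, dimH E = 0 ∧ ∀ x ∉ E, ∀ (n s : ℕ) (φ : Fin n → ℂ → ℂ) (e : Fin s → Fin n), 0 < n → Curve x φ e →
      ∀ (F : Type) [Field F] [NumberField F] (ι : F →+* ℂ) (d A : ℕ) (ω : ℝ), 0 < ω → ∃ B T₁ : ℝ, ∀ T : ℝ, T₁ ≤ T →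
        ∀ t : F, Size F T t → ‖ι t - x‖ ≤ T ^ (-ω) →
          ¬ Relation (value φ e (ι t)) ξ F ι d A B T ∧
          ∀ W : MvPolynomial ((Fin n × Fin 3) ⊕ Fin s) ℤ, W ≠ 0 → (∀ k, W.degreeOf k ≤ d) →
            (∀ m, |((W.coeff m : ℤ) : ℝ)| ≤ T ^ A) → T ^ (-B) < ‖MvPolynomial.aeval (value φ e (ι t)) W‖ := by
  obtain ⟨E, hE1, hE2⟩ := Pool.Agent.T2H95.NJ.near_curves ξ
  refine ⟨E, hE1, fun x hx n s φ e hn hφ F _ _ ι d A ω hω => ?_⟩
  obtain ⟨B, T₁, hB⟩ := hE2 x hx n s φ e hn hφ.at F ι d A ω hω
  -- the points near `x` are in the upper half-plane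
  have hev : ∀ᶠ z in 𝓝 x, ∀ i, 0 < (φ i z).im := by
    rw [Filter.eventually_all]
    intro i
    have hc : ContinuousAt (fun z => (φ i z).im) x := Complex.continuous_im.continuousAt.comp (hφ.analytic i).continuousAt
    exact hc.eventually (lt_mem_nhds (hφ.im_pos i))
  obtain ⟨ρ, hρ, hball⟩ := Metric.eventually_nhds_iff_ball.1 hev
  obtain ⟨T₂, hT₂⟩ := Filter.eventually_atTop.1 ((tendsto_rpow_neg_atTop hω).eventually (gt_mem_nhds hρ))
  refine ⟨B, max (max T₁ T₂) 1, fun T hT t ht htx => ?_⟩
  have hT1 : T₁ ≤ T := ((le_max_left _ _).trans (le_max_left _ _)).trans hT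
  have hT2 : T₂ ≤ T := ((le_max_right _ _).trans (le_max_left _ _)).trans hT
  have hT0 : 0 < T := lt_of_lt_of_le one_pos ((le_max_right _ _).trans hT)
  have him := hball (ι t) (by
    rw [Metric.mem_ball, dist_eq_norm]
    exact lt_of_le_of_lt htx (hT₂ T hT2))
  have h1 : ¬ Pool.Agent.X39.Near.Dep (value φ e (ι t)) ξ F ι d A B T := by
    rw [value_eq him]
    exact hB T hT1 t ht htx
  exact ⟨h1, fun W hW hWd hWA => Pool.Agent.X39.Near.int_of_not_dep h1 hT0 W hW hWd (fun m => by exact_mod_cast hWA m)⟩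

end Pool.Agent.Results.MP_f58a57_nt.CurvesNearEveryNumber
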