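import Pool.Agent.T2H95.NJ.NearN
import Pool.Agent.X39.Near.JQ

/-!
# The modular Schanuel conjecture with derivatives at ALL `n`-tuples of algebraic numbers close to almost every point, on
# products of algebraic curves

For each of `n` parameters `t_1, …, t_n` let `z_(l i) = φ_(l i) (t_l)`, `i = 1, …, p`, be an algebraic curve over the
algebraic numbers in `ℍ ^ p`: the `φ_(l i)` are non-constant algebraic functions, analytic at a point `x_l`, with values in the
upper half-plane, and `φ_(l k) ≠ γ φ_(l i)` for all rational matrices `γ` and all `i ≠ k` (there is no condition between the curves for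
different `l`; for `p = 1`, `φ_l (t) = t`, we have `n` independent algebraic points of `ℍ`). For algebraic `t_l` the `z_(l i)` are
algebraic, and if they are not special and in distinct orbits of `GL₂(ℚ)`, the conjecture says that the `3 n p` numbers
`j`, `j'`, `j''` at these points are algebraically independent.

There is **one** subset `E` of `ℂ ^ n`, of Hausdorff dimension at most `2 (n - 1)`, such that for all `x = (x_1, …, x_n)` outside of
`E`, all such curves, all number fields `K ⊂ ℂ`, all degrees `d`, all `A` and **all** `w > 0` (arbitrarily small) there are `B` and `T₀`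
such that for all `T ≥ T₀`, at ALL `n`-tuples `t` of elements of `K` of height at most `T` with `|t_l - x_l| ≤ T ^ (-w)`, the
`3 n p` numbers `j (z_(l i))`, `j' (z_(l i))`, `j'' (z_(l i))` together with `π` have no relation over `K` of partial degrees at
most `d` and height at most `T ^ A`, not even an approximate one: all values are greater than `T ^ (-B)`. Instead of `π` one can
take all real numbers `ξ_1, …, ξ_g` whose integral polynomials of bounded degree are bounded below by a power of the height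
(`Good`; this holds for almost all `ξ`), and one can add the numbers `exp (2 π i z_(l i))` for those `i` in a set for which
no non-trivial combination of the functions `φ_(l i)` with integral coefficients is constant (Bertolin's conjecture).

Proof: the exceptional tuples lie on `C T ^ ε` hypersurfaces of degree at most `D` (`Pool.Agent.Y771.KF.stdK`), the points near
such hypersurfaces form a set of small dimension (`Pool.Agent.Helper264.NT.mainK`), and the functions are algebraically
independent (`Pool.Agent.T2H95.NJ.Crv.loc`: a relation between `j (φ_1)` and `j (φ_2)` implies that `φ_2 = γ φ_1` with a complex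
matrix `γ`, by the Schwarzian equation, and then that `γ` is rational up to a factor). There are countably many algebraic
functions over the algebraic numbers on each rational disc.
-/

set_option autoImplicit false

open Height Filter Topology
open scoped ENNReal

namespace Pool.Agent.Results.MP_f58a57_nt.TuplesNearEveryPoint

/-- the normalised Eisenstein series of weight `4` -/
noncomputable def E4 (τ : ℂ) : ℂ :=
  1 + 240 * ∑' m : ℕ, ((ArithmeticFunction.sigma 3 (m + 1) : ℕ) : ℂ) *
    Complex.exp (2 * (Real.pi : ℂ) * Complex.I * τ) ^ (m + 1)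

/-- the normalised Eisenstein series of weight `6` -/
noncomputable def E6 (τ : ℂ) : ℂ :=
  1 - 504 * ∑' m : ℕ, ((ArithmeticFunction.sigma 5 (m + 1) : ℕ) : ℂ) *
    Complex.exp (2 * (Real.pi : ℂ) * Complex.I * τ) ^ (m + 1)

/-- the modular invariant `j = q⁻¹ + 744 + 196884 q + ⋯` -/
noncomputable def j (τ : ℂ) : ℂ := 1728 * E4 τ ^ 3 / (E4 τ ^ 3 - E6 τ ^ 2)

/-- the `3 n + s` numbers `j (z_i)`, `j' (z_i)`, `j'' (z_i)` (complex derivatives) and `exp (2 π i z_(e k))`, where
`z_i = φ_i (t)` -/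
noncomputable def value {n s : ℕ} (φ : Fin n → ℂ → ℂ) (e : Fin s → Fin n) (t : ℂ) : (Fin n × Fin 3) ⊕ Fin s → ℂ :=
  Sum.elim (fun p => ![j (φ p.1 t), deriv j (φ p.1 t), deriv (deriv j) (φ p.1 t)] p.2)
    fun k => Complex.exp (2 * (Real.pi : ℂ) * Complex.I * φ (e k) t)

/-- An algebraic curve near the point `x`, over the algebraic numbers, in `ℍ ^ n`, with non-constant coordinates no two of
which are related by a rational matrix; and no combination of the coordinates `φ_(e k)` with integral coefficients, not all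
zero, is constant (this is no condition for `s = 0`). -/
structure Curve (x : ℂ) {n s : ℕ} (φ : Fin n → ℂ → ℂ) (e : Fin s → Fin n) : Prop where
  analytic : ∀ i, AnalyticAt ℂ (φ i) x
  im_pos : ∀ i, 0 < (φ i x).im
  algebraic : ∀ i, ∃ P : MvPolynomial (Fin 2) ℂ, P ≠ 0 ∧ (∀ m, IsAlgebraic ℚ (P.coeff m)) ∧
    ∀ᶠ z in 𝓝 x, MvPolynomial.eval ![z, φ i z] P = 0
  nonconstant : ∀ i c, ¬ ∀ᶠ z in 𝓝 x, φ i z = c
  orbits : ∀ i k, i ≠ k → ∀ a b c d : ℚ, a * d - b * c ≠ 0 →
    ¬ ∀ᶠ z in 𝓝 x, φ k z * ((c : ℂ) * φ i z + d) = (a : ℂ) * φ i z + b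
  linear : ∀ (m : Fin s → ℤ) (c : ℂ), (∀ᶠ z in 𝓝 x, ∑ k, (m k : ℂ) * φ (e k) z = c) → m = 0

/-- The real numbers `ξ_1, …, ξ_g` have a measure of algebraic independence which is polynomial in the height, for
each degree. -/
def Good {g : ℕ} (ξ : Fin g → ℝ) : Prop := ∀ d : ℕ, ∃ κ : ℕ, ∃ c : ℝ, 0 < c ∧
  ∀ (h : ℝ) (P : MvPolynomial (Fin g) ℤ), 1 ≤ h → P ≠ 0 → P.totalDegree ≤ d → (∀ s, |((P.coeff s : ℤ) : ℝ)| ≤ h) →
    c ≤ h ^ κ * |MvPolynomial.aeval ξ P|

/-- the numbers `value` at the parameters `t_l`, and the numbers `ξ_k` -/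
noncomputable def numbers {n p s g : ℕ} (φ : Fin n → Fin p → ℂ → ℂ) (e : Fin n → Fin s → Fin p) (ξ : Fin g → ℝ)
    (t : Fin n → ℂ) : (Fin n × ((Fin p × Fin 3) ⊕ Fin s)) ⊕ Fin g → ℂ :=
  Sum.elim (fun c => value (φ c.1) (e c.1) (t c.1) c.2) fun k => ((ξ k : ℝ) : ℂ)

/-- every nonzero polynomial with coefficients in `K` of height at most `T ^ A`, of degree at most `d` in each variable,
takes at the numbers `v` a value of absolute value greater than `T ^ (-B)` -/
def Measure {W : Type} (K : IntermediateField ℚ ℂ) [NumberField K] (v : W → ℂ) (d : ℕ) (A B T : ℝ) : Prop :=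
  ∀ P : MvPolynomial W K, P ≠ 0 → (∀ i, P.degreeOf i ≤ d) → (∀ m, mulHeight₁ (P.coeff m) ≤ T ^ A) →
    T ^ (-B) < ‖MvPolynomial.eval₂ (algebraMap K ℂ) v P‖

theorem j_eq {τ : ℂ} (h : 0 < τ.im) : j τ = Pool.Agent.Y776.jf τ := Pool.Agent.X39.Near.JQ.J_exp h

theorem j_ev {τ : ℂ} (h : 0 < τ.im) : j =ᶠ[𝓝 τ] Pool.Agent.Y776.jf := by
  filter_upwards [Pool.Agent.Y776.AxJ.isOpen_H.mem_nhds h] with σ hσ
  exact j_eq hσ

theorem dj_eq {τ : ℂ} (h : 0 < τ.im) : deriv j τ = deriv Pool.Agent.Y776.jf τ := (j_ev h).deriv_eq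

theorem dj_ev {τ : ℂ} (h : 0 < τ.im) : deriv j =ᶠ[𝓝 τ] deriv Pool.Agent.Y776.jf := by
  filter_upwards [Pool.Agent.Y776.AxJ.isOpen_H.mem_nhds h] with σ hσ
  exact dj_eq hσ

theorem ddj_eq {τ : ℂ} (h : 0 < τ.im) : deriv (deriv j) τ = deriv (deriv Pool.Agent.Y776.jf) τ := (dj_ev h).deriv_eq

theorem value_eq {n s : ℕ} {φ : Fin n → ℂ → ℂ} {e : Fin s → Fin n} {t : ℂ} (h : ∀ i, 0 < (φ i t).im) :
    value φ e t = fun k => Pool.Agent.T2H95.NJ.vl φ e k t := by
  funext k
  rcases k with ⟨i, m⟩ | k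
  · fin_cases m
    · exact j_eq (h i)
    · exact dj_eq (h i)
    · exact ddj_eq (h i)
  · rfl

theorem Curve.at {x : ℂ} {n s : ℕ} {φ : Fin n → ℂ → ℂ} {e : Fin s → Fin n} (h : Curve x φ e) :
    Pool.Agent.T2H95.NJ.CurveAt x φ e where
  an := h.analytic
  im := h.im_pos
  alg := h.algebraic
  nc := h.nonconstant
  rat := fun i k hik p q r s hdet => h.orbits i k hik p q r s hdet
  lin := h.linear

theorem good_pi : Good (fun _ : Fin 1 => Real.pi) := by
  intro d
  obtain ⟨κ, c, hc, h⟩ := Pool.Agent.Y124.goodXi_pi d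
  refine ⟨κ, c, hc, fun x P hx hP hPd hPc => ?_⟩
  have h0 : Function.Injective (fun _ : Fin 1 => ()) := fun a b _ => Subsingleton.elim a b
  have h1 : MvPolynomial.aeval (fun _ : Unit => Real.pi) (MvPolynomial.rename (fun _ : Fin 1 => ()) P) =
      MvPolynomial.aeval (fun _ : Fin 1 => Real.pi) P := by
    rw [MvPolynomial.aeval_rename]
    rfl
  rw [← h1]
  refine h x _ hx (fun h2 => hP (MvPolynomial.rename_injective _ h0 (by rw [h2, map_zero])))
    ((MvPolynomial.totalDegree_rename_le _ _).trans hPd) fun s => ?_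
  by_cases hs : ∃ u, Finsupp.mapDomain (fun _ : Fin 1 => ()) u = s
  · obtain ⟨u, rfl⟩ := hs
    rw [MvPolynomial.coeff_rename_mapDomain _ h0]
    exact hPc u
  · rw [MvPolynomial.coeff_rename_eq_zero _ _ _ fun u' hu' => absurd ⟨u', hu'⟩ hs]
    simpa using by linarith

/-- **Theorem.** The number `π` is `Good`. Let `n ≥ 1` and let `ξ_1, …, ξ_g` be `Good`. There is a subset `E` of `ℂ ^ n` of
Hausdorff dimension at most `2 (n - 1)` such that for all `x` outside of `E`, all `p ≥ 1`, `s`, all algebraic curves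
`φ_l` near `x_l` (`Curve`), all number fields `K ⊂ ℂ`, all `d`, `A` and `w > 0` there are `B` and `T₀` such that for all
`T ≥ T₀` and all `n`-tuples `t` of elements of `K` of height at most `T` with `|t_l - x_l| ≤ T ^ (-w)` the numbers
`numbers` have the property `Measure`. -/
theorem result (n : ℕ) (hn : 1 ≤ n) : Good (fun _ : Fin 1 => Real.pi) ∧ ∀ (g : ℕ) (ξ : Fin g → ℝ), Good ξ →
    ∃ E : Set (Fin n → ℂ), dimH E ≤ ((2 * (n - 1) : ℕ) : ℝ≥0∞) ∧ ∀ x ∉ E, ∀ (p s : ℕ) (φ : Fin n → Fin p → ℂ → ℂ)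
      (e : Fin n → Fin s → Fin p), 0 < p → (∀ l, Curve (x l) (φ l) (e l)) →
      ∀ (K : IntermediateField ℚ ℂ) [NumberField K] (d : ℕ) (A w : ℝ), 0 < w → ∃ B T₀ : ℝ, ∀ T ≥ T₀, ∀ t : Fin n → K,
        (∀ l, mulHeight₁ (t l) ≤ T ∧ ‖(t l : ℂ) - x l‖ ≤ T ^ (-w)) →
          Measure K (numbers φ e ξ fun l => (t l : ℂ)) d A B T := by
  refine ⟨good_pi, fun g ξ hξ => ?_⟩
  obtain ⟨E, hE1, hE2⟩ := Pool.Agent.T2H95.NJ.near_curves_n n hn ξ hξ
  refine ⟨E, hE1, fun x hx p s φ e hp hφ K _ d A w hw => ?_⟩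
  obtain ⟨B, T0, hB⟩ := hE2 x hx p s φ e hp (fun l => (hφ l).at) K d A w hw
  -- the points near `x_l` are in the upper half-plane
  have hev : ∀ l, ∀ᶠ z in 𝓝 (x l), ∀ i, 0 < (φ l i z).im := by
    intro l
    rw [Filter.eventually_all]
    intro i
    have hc : ContinuousAt (fun z => (φ l i z).im) (x l) :=
      Complex.continuous_im.continuousAt.comp ((hφ l).analytic i).continuousAt
    exact hc.eventually (lt_mem_nhds ((hφ l).im_pos i))
  choose O hO hOo hxO using fun l => eventually_nhds_iff.1 (hev l)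
  obtain ⟨T1, -, h1⟩ := Pool.Agent.Helper264.NT.mem_of_near O hOo x hxO w hw
  refine ⟨B, max T0 T1, fun T hT t ht P hP hPd hPc => ?_⟩
  by_contra hcon
  rw [not_lt] at hcon
  have hmem := h1 T ((le_max_right _ _).trans hT) (fun l => (t l : ℂ)) fun l => (ht l).2
  refine hB T ((le_max_left _ _).trans hT) t ht ⟨P, hP, hPd, hPc, ?_⟩
  have e1 : (numbers φ e ξ fun l => (t l : ℂ)) =
      (Sum.elim (fun c : Fin n × ((Fin p × Fin 3) ⊕ Fin s) =>
        Pool.Agent.T2H95.NJ.vl (φ c.1) (e c.1) c.2 (algebraMap K ℂ (t c.1))) fun k => ((ξ k : ℝ) : ℂ)) := by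
    funext k
    rcases k with ⟨l, k⟩ | k
    · exact congrFun (value_eq (hO l _ (hmem l))) k
    · rfl
  rw [e1] at hcon
  exact hcon

end Pool.Agent.Results.MP_f58a57_nt.TuplesNearEveryPoint
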